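import Pool.Agent.Q82.AB.Num
import Pool.Agent.Y173.QA.Kod
import Pool.Agent.W619.Y.Down
import Pool.Agent.W300.PG.TRGE

/-! Kodaira dimension and numerical dimension of varieties with a space of closed 1-forms which
generate the cotangent bundle generically, and of their quotients. -/

set_option autoImplicit false
set_option linter.overlappingInstances false
set_option linter.unusedSectionVars false

open FF IntermediateField Pool.Agent.W619.PQ Pool.Agent.W619.PL Pool.Agent.W619.TW
  Pool.Agent.W603.LV Pool.Agent.W619.Y Pool.Agent.TH122.AB MvPolynomial Pool.Agent.Y173.QA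

namespace Pool.Agent.Q82.AB

variable {k : Type} [Field k] [CharZero k] {L : Type} [Field L] [Algebra k L]

theorem isSec_eta {n : ℕ} {V : Submodule k (Derivation k L L →ₗ[L] L)}
    (hreg : ∀ θ ∈ V, IsRegForm n θ) {θ : Fin n → Derivation k L L →ₗ[L] L}
    (hθ : ∀ i, θ i ∈ V) : IsSec k L n (fun _ => False) {1} 1 0 (eta θ) := by
  refine ⟨eta_pluri θ, fun v hv _ D hD => ?_, fun v hv h => absurd h (fun h => h)⟩
  have h1 : Ge v 0 (eta θ D) := eta_reg (fun i => hreg _ (hθ i)) hv hD
  rcases h1 with h1 | h1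
  · exact Or.inl h1
  · exact Or.inr ⟨1, Finset.mem_singleton_self 1, one_ne_zero, by simpa using h1⟩

theorem kod_ge {n a : ℕ} {V : Submodule k (Derivation k L L →ₗ[L] L)}
    (hreg : ∀ θ ∈ V, IsRegForm n θ) {θ : Fin n → Derivation k L L →ₗ[L] L}
    (hθ : ∀ i, θ i ∈ V) {t : Fin a → L} (ht : AlgebraicIndependent k t)
    {P : Fin n → Derivation k L L} (hP1 : ∀ i j, θ i (P j) = if i = j then 1 else 0)
    (htV : ∀ j, ∃ τ ∈ V, ∃ i, t j = τ (P i)) : KodTr k L n a := by
  classical
  choose τ hτ i hi using htV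
  have e0 : eta θ P = 1 := by
    unfold eta
    have h1 : (Matrix.of fun i j => θ i (P j)) = 1 := by
      ext i j
      rw [Matrix.of_apply, hP1, Matrix.one_apply]
    rw [h1, Matrix.det_one]
  have e1 : ∀ j, eta (Function.update θ (i j) (τ j)) P = t j := by
    intro j
    unfold eta
    have h1 : (Matrix.of fun i' j' => Function.update θ (i j) (τ j) i' (P j')) =
        Matrix.transpose (Matrix.updateCol 1 (i j) (fun j' => τ j (P j'))) := by
      rw [← Matrix.updateRow_transpose, Matrix.transpose_one]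
      ext i' j'
      by_cases h : i' = i j
      · rw [h, Matrix.of_apply, Function.update_self, Matrix.updateRow_self]
      · rw [Matrix.of_apply, Function.update_of_ne h, Matrix.updateRow_ne h, hP1,
          Matrix.one_apply]
    rw [h1, Matrix.det_transpose, ← Matrix.cramer_apply, Matrix.cramer_one]
    exact (hi j).symm
  refine ⟨1, le_rfl, Fin.cons (eta θ) (fun j => eta (Function.update θ (i j) (τ j))),
    fun l => ?_, P, fun l => ?_, ?_⟩
  · refine Fin.cases ?_ (fun j => ?_) l
    · exact isSec_eta hreg hθ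
    · refine isSec_eta hreg fun i' => ?_
      by_cases h : i' = i j
      · rw [h, Function.update_self]
        exact hτ j
      · rw [Function.update_of_ne h]
        exact hθ i'
  · refine Fin.cases ?_ (fun j => ?_) l
    · rw [Fin.cons_zero, e0]
      exact one_ne_zero
    · rw [Fin.cons_succ, e1]
      exact ht.ne_zero j
  · have h1 : (fun l : Fin a => (Fin.cons (eta θ) (fun j => eta (Function.update θ (i j) (τ j))) :
        Fin (a + 1) → (Fin n → Derivation k L L) → L) l.succ P /
        (Fin.cons (eta θ) (fun j => eta (Function.update θ (i j) (τ j))) :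
        Fin (a + 1) → (Fin n → Derivation k L L) → L) 0 P) = t := by
      funext l
      rw [Fin.cons_succ, Fin.cons_zero, e0, e1, div_one]
    rw [h1]
    exact ht

/-- nonvanishing on the quotient -/
theorem nonvan [IsAlgClosed k] {n : ℕ} (htr : Algebra.trdeg k L = n) (G : Subgroup (L ≃ₐ[k] L))
    [Finite G] {V : Submodule k (Derivation k L L →ₗ[L] L)}
    (hreg : ∀ θ ∈ V, IsRegForm n θ)
    (hstab : ∀ g ∈ G, ∀ θ ∈ V, ∃ θ' ∈ V, IsImage g θ θ')
    (hRT : ReidTai n G V 0)
    {θ : Fin n → Derivation k L L →ₗ[L] L} (hθ : ∀ i, θ i ∈ V)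
    {D0 : Fin n → Derivation k L L} (hD0 : eta θ D0 ≠ 0) :
    KodTr k (fixedField G) n 0 := by
  refine kod_descent G htr (m := 1) le_rfl (fun _ => eta θ) (fun _ => eta_pluri θ) ?_ D0
    (fun _ => hD0) ?_
  · intro v hv
    obtain ⟨w, e, hwv, hg⟩ := exists_rot G v hv
    refine ⟨w, e, hwv, fun D D' hD hDD l g => ?_⟩
    obtain ⟨h1, h2, h, ζ, hord, hζ, hrot⟩ := hg g
    rw [← ge_comp]
    exact est_eta G htr hreg hstab hRT h1 h2 hord hζ hrot hθ hD hDD
  · exact algebraicIndependent_empty_type

theorem kod_le_num {K : Type} [Field K] [Algebra k K] {n a b : ℕ}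
    (h : KodGe k K n (fun _ => False) b) (h' : NumLe k K n (fun _ => False) a) : b ≤ a := by
  obtain ⟨m, hm, hg⟩ := h
  obtain ⟨C, hC⟩ := h' {1}
  have h1 : ∀ j : ℕ, 1 ≤ j → j ^ b ≤ C * (j * m) ^ a := by
    intro j hj
    obtain ⟨ω, hlin, hω⟩ := hg j hj
    refine hC (j * m) (j ^ b) (Nat.mul_pos hj hm) ⟨ω, hlin, fun l => ⟨(hω l).1, ?_, ?_⟩⟩
    · intro v hv hb D hD
      rcases (hω l).2.1 v hv hb D hD with h3 | ⟨s, hs, hs0, h3⟩
      · exact Or.inl h3
      · refine Or.inr ⟨s, hs, hs0, ?_⟩
        rw [Finset.mem_singleton.1 hs, v.ord_one] at h3 ⊢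
        simpa using h3
    · intro v hv hb
      exact absurd hb fun h => h
  by_contra hab
  push Not at hab
  obtain ⟨c, hc⟩ : ∃ c, c = C * m ^ a := ⟨_, rfl⟩
  have h2 := h1 (c + 1) (by omega)
  have h3 : (c + 1) ^ (a + 1) ≤ (c + 1) ^ b := Nat.pow_le_pow_right (by omega) hab
  have h4 : C * ((c + 1) * m) ^ a = c * (c + 1) ^ a := by
    rw [mul_pow, hc]
    ring
  rw [h4] at h2
  have h5 : (c + 1) ^ (a + 1) ≤ c * (c + 1) ^ a := h3.trans h2
  rw [pow_succ, mul_comm] at h5
  have h6 := Nat.le_of_mul_le_mul_right h5 (pow_pos (by omega) a)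
  omega

theorem main [IsAlgClosed k] [Algebra.EssFiniteType k L] {n : ℕ} (hn0 : 0 < n)
    (hn : Algebra.trdeg k L = n) (V : Submodule k (Derivation k L L →ₗ[L] L))
    (hreg : ∀ θ ∈ V, IsRegForm n θ) (hcl : ∀ θ ∈ V, IsClosedForm θ)
    (hgen : ∃ θ : Fin n → Derivation k L L →ₗ[L] L, (∀ i, θ i ∈ V) ∧
      ∃ D : Fin n → Derivation k L L, (Matrix.of fun i j => θ i (D j)).det ≠ 0)
    (G : Subgroup (L ≃ₐ[k] L)) [Finite G]
    (hstab : ∀ g ∈ G, ∀ θ ∈ V, ∃ θ' ∈ V, IsImage g θ θ') :
    ∃ a r : ℕ, a + r = n ∧ Module.finrank k (constFields V) = r ∧ KodTr k L n a ∧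
      KodGe k L n (fun _ => False) a ∧
      (ReidTai n G V 0 → KodTr k (fixedField G) n 0) ∧
      (ReidTai n G V 1 → KodTr k (fixedField G) n a ∧
        KodGe k (fixedField G) n (fun _ => False) a) ∧
      (IsRegularOnModel (constFields V) →
        NumLe k L n (fun _ => False) a ∧ NumLe k (fixedField G) n (fun _ => False) a ∧
        (∀ b, KodTr k L n b → b ≤ a) ∧ (∀ b, KodTr k (fixedField G) n b → b ≤ a)) := by
  obtain ⟨θ, hθ, D0, hD0⟩ := hgen
  have hfin : ∀ y : Fin n → L, IsTranscendenceBasis k y →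
      FiniteDimensional (IntermediateField.adjoin k (Set.range y)) L := by
    intro y hy
    have halg : Algebra.IsAlgebraic (IntermediateField.adjoin k (Set.range y)) L :=
      hy.isAlgebraic_field
    have h2 : Algebra.EssFiniteType (IntermediateField.adjoin k (Set.range y)) L :=
      Algebra.EssFiniteType.of_comp k _ L
    obtain ⟨s, hs⟩ := IntermediateField.fg_top (IntermediateField.adjoin k (Set.range y)) L
    have h1 : FiniteDimensional (IntermediateField.adjoin k (Set.range y))
        (IntermediateField.adjoin (IntermediateField.adjoin k (Set.range y)) (s : Set L)) :=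
      IntermediateField.finiteDimensional_adjoin fun x _ =>
        (halg.isAlgebraic x).isIntegral
    rw [hs] at h1
    exact h1.equiv IntermediateField.topEquiv.toLinearEquiv
  obtain ⟨a, r, t, P, U, har, ht, hP1, hP2, htV, hU, hUt, hUspan, -, hfr⟩ :=
    structure_thm hn hfin V hreg hcl hθ hD0
  have hkod := kod_ge hreg hθ ht hP1 htV
  have hnK : Algebra.trdeg k (fixedField G) = n := by
    have hfinL : FiniteDimensional (fixedField G) L := by
      have hGal : IsGaloisGroup G (fixedField G) L := isGaloisGroup_fixed G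
      exact IsGaloisGroup.finiteDimensional G (fixedField G) L
    rw [← hn, ← trdeg_add_eq k (fixedField G) (A := L),
      trdeg_eq_zero (R := fixedField G) (A := L), add_zero]
  have hge : ∀ b, KodTr k (fixedField G) n b → KodGe k (fixedField G) n (fun _ => False) b :=
    fun b h => Pool.Agent.W300.PG.TRGE.main k (fixedField G) n b hnK h
  have hge' : ∀ b, KodTr k L n b → KodGe k L n (fun _ => False) b :=
    fun b h => Pool.Agent.W300.PG.TRGE.main k L n b hn h
  refine ⟨a, r, har, hfr, hkod, hge' a hkod, fun h => nonvan hn G hreg hstab h hθ hD0, fun h => ?_,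
    fun h => ?_⟩
  · have h1 := kod_down G hn hreg hstab h hθ hD0 hkod
    exact ⟨h1, hge a h1⟩
  · obtain ⟨N, z, hz0, htop, hz⟩ := h
    have h1 : NumLe k L n (fun _ => False) a := by
      subst har
      exact num_le hn0 hn hfin ht hz0 htop hUt (fun l i j => hz (U l) (hU l) i j) hUspan
    have h2 := (down n hn G).2.2 a h1
    exact ⟨h1, h2, fun b h => kod_le_num (hge' b h) h1, fun b h => kod_le_num (hge b h) h2⟩

end Pool.Agent.Q82.AB
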