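import Pool.Agent.Y173.QA.Phi
import Pool.Agent.Y173.QA.Str2
import Pool.Agent.Y173.QA.DefsU

/-! The growth of the sections of `m K + A` on a variety with a space of closed 1-forms which
generate the cotangent bundle generically, if the constant vector fields are regular on a model. -/

set_option autoImplicit false
set_option linter.overlappingInstances false
set_option linter.unusedSectionVars false

open FF IntermediateField Pool.Agent.W619.PQ Pool.Agent.W619.PL Pool.Agent.W619.TW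
  Pool.Agent.W603.LV Pool.Agent.W619.Y Pool.Agent.TH122.AB MvPolynomial Pool.Agent.Y173.QA

namespace Pool.Agent.Q82.AB

variable {k : Type} [Field k] [CharZero k] {L : Type} [Field L] [Algebra k L]

theorem pres_smul {P : Place k L} {D : Derivation k L L} (hD : Pres P D) {c : L} (hc : P.Reg c) :
    Pres P (c • D) := by
  intro f hf
  rw [Derivation.smul_apply, smul_eq_mul]
  exact P.reg_mul hc (hD f hf)

theorem pres_sum {ι : Type*} {P : Place k L} (s : Finset ι) {D : ι → Derivation k L L}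
    (hD : ∀ i ∈ s, Pres P (D i)) : Pres P (∑ i ∈ s, D i) := by
  classical
  induction s using Finset.induction_on with
  | empty =>
    intro f _
    rw [Finset.sum_empty, Derivation.zero_apply]
    exact P.reg_zero
  | insert i s hi ih =>
    rw [Finset.sum_insert hi]
    intro f hf
    rw [Derivation.add_apply]
    exact P.reg_add (hD i (Finset.mem_insert_self _ _) f hf)
      (ih (fun j hj => hD j (Finset.mem_insert_of_mem hj)) f hf)

/-- a derivation becomes regular at a divisorial place after multiplication by functions of large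
order -/
theorem exists_lattice {n : ℕ} (htr : Algebra.trdeg k L = n)
    (hfin : ∀ y : Fin n → L, IsTranscendenceBasis k y →
      FiniteDimensional (IntermediateField.adjoin k (Set.range y)) L)
    {P : Place k L} (hP : IsDivisorial P n) (D : Derivation k L L) :
    ∃ c : ℕ, ∀ u : L, (c : ℤ) ≤ P.ord u → Pres P (u • D) := by
  classical
  obtain ⟨y, E, i0, hy, hE, -, -, hEP⟩ := pFRAME k L n htr hfin P hP
  refine ⟨∑ i, (P.ord (D (y i))).natAbs, fun u hu => ?_⟩
  have h1 : u • D = ∑ i, (u * D (y i)) • E i := by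
    conv_lhs => rw [der_expand hy hE D]
    rw [Finset.smul_sum]
    exact Finset.sum_congr rfl fun i _ => by rw [smul_smul]
  rw [h1]
  refine pres_sum _ fun i _ => pres_smul (hEP i) ?_
  by_cases hu0 : u = 0
  · left; rw [hu0, zero_mul]
  by_cases hD : D (y i) = 0
  · left; rw [hD, mul_zero]
  right
  rw [P.ord_mul hu0 hD]
  have h2 : (P.ord (D (y i))).natAbs ≤ ∑ i, (P.ord (D (y i))).natAbs :=
    Finset.single_le_sum (f := fun i => (P.ord (D (y i))).natAbs) (fun _ _ => Nat.zero_le _)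
      (Finset.mem_univ i)
  omega

/-- the poles at any divisorial place grow at most linearly -/
theorem inf_any {n : ℕ} (htr : Algebra.trdeg k L = n)
    (hfin : ∀ y : Fin n → L, IsTranscendenceBasis k y →
      FiniteDimensional (IntermediateField.adjoin k (Set.range y)) L)
    {P : Place k L} (hP : IsDivisorial P n) {w : L} (hw : 0 < P.ord w)
    (Φ : Fin n → Derivation k L L) (S : Finset L) {q : L} (hq : q ≠ 0) :
    ∃ A B : ℕ, ∀ (m : ℕ) (ω : (Fin n → Derivation k L L) → L),
      IsSec k L n (fun _ => False) S m 1 ω → Ge P (-((A * m + B : ℕ) : ℤ)) (q ^ m * ω Φ) := by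
  classical
  choose c hc using fun i => exists_lattice htr hfin hP (Φ i)
  obtain ⟨C, hC⟩ : ∃ C, C = ∑ i, c i := ⟨_, rfl⟩
  have hw0 : w ≠ 0 := by
    rintro rfl
    rw [P.ord_zero] at hw
    exact lt_irrefl _ hw
  obtain ⟨W, hW⟩ : ∃ W : ℕ, P.ord w = W := ⟨(P.ord w).toNat, by omega⟩
  have hW1 : 1 ≤ W := by omega
  have hu : ∀ i, Pres P ((w ^ C) • Φ i) := by
    intro i
    apply hc i
    rw [P.ord_pow, hW]
    have h1 : c i ≤ C := by
      rw [hC]
      exact Finset.single_le_sum (f := c) (fun _ _ => Nat.zero_le _) (Finset.mem_univ i)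
    have h2 : c i ≤ C * W := h1.trans (Nat.le_mul_of_pos_right C hW1)
    exact_mod_cast h2
  refine ⟨n * (C * W) + (P.ord q).natAbs, ∑ s ∈ S, (P.ord s).natAbs, fun m ω hω => ?_⟩
  by_cases h0 : ω Φ = 0
  · left; rw [h0, mul_zero]
  right
  have h1 := hω.2.1 P hP (fun h => h) (fun i => w ^ C • Φ i) (fun i => hu i)
  rw [phi_smul hω.1] at h1
  have hx0 : ((w ^ C) ^ n) ^ m * ω Φ ≠ 0 :=
    mul_ne_zero (pow_ne_zero _ (pow_ne_zero _ (pow_ne_zero _ hw0))) h0
  obtain ⟨s, hs, hs0, h2⟩ := h1.resolve_left hx0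
  rw [P.ord_mul (pow_ne_zero _ (pow_ne_zero _ (pow_ne_zero _ hw0))) h0, P.ord_pow, P.ord_pow,
    P.ord_pow, hW] at h2
  rw [P.ord_mul (pow_ne_zero _ hq) h0, P.ord_pow]
  have h3 : (P.ord s).natAbs ≤ ∑ s ∈ S, (P.ord s).natAbs :=
    Finset.single_le_sum (f := fun s => (P.ord s).natAbs) (fun _ _ => Nat.zero_le _) hs
  have h4 : -(((P.ord q).natAbs : ℤ) * m) ≤ m * P.ord q := by
    have h5 : -((P.ord q).natAbs : ℤ) ≤ P.ord q := by omega
    have h6 : (m : ℤ) * (-((P.ord q).natAbs : ℤ)) ≤ m * P.ord q :=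
      mul_le_mul_of_nonneg_left h5 (by positivity)
    linarith
  have h5 : ((P.ord s).natAbs : ℤ) ≤ ((∑ s ∈ S, (P.ord s).natAbs : ℕ) : ℤ) := by exact_mod_cast h3
  have h6 : -((P.ord s).natAbs : ℤ) ≤ P.ord s := by omega
  push_cast at h2 h4 h5 h6 ⊢
  nlinarith

/-- polynomials in the base coordinates clear the poles of the vector fields at the vertical
places -/
theorem exists_vert_clear {a r : ℕ} {Z : Fin (a + r) → L} (hZ : IsTranscendenceBasis k Z)
    (hfd : FiniteDimensional (IntermediateField.adjoin k (Set.range Z)) L) {ι : Type}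
    [Fintype ι] (Φ : ι → Derivation k L L) :
    ∃ q : MvPolynomial (Fin a) k, q ≠ 0 ∧ ∀ p : MvPolynomial (Fin (a + r)) k, Irreducible p →
      Vert p → ∀ P : Place k L, Adic Z p P → ∀ i,
        Pres P (aeval Z (rename (Fin.castAdd r) q) • Φ i) := by
  classical
  choose Q hQ0 hQ using fun i => exists_clear hZ hfd (Φ i)
  obtain ⟨QQ, hQQ⟩ : ∃ QQ, QQ = ∏ i, Q i := ⟨_, rfl⟩
  have hQQ0 : QQ ≠ 0 := by
    rw [hQQ]
    exact Finset.prod_ne_zero_iff.2 fun i _ => hQ0 i
  obtain ⟨r0, Q', ⟨q, rfl⟩, h2, h3⟩ := exists_vert_part hQQ0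
  have hq0 : q ≠ 0 := by
    rintro rfl
    apply hQQ0
    rw [h2, map_zero, zero_mul]
  have hQ'0 : Q' ≠ 0 := by
    rintro rfl
    apply hQQ0
    rw [h2, mul_zero]
  refine ⟨q, hq0, fun p hp hpv P hP i => ?_⟩
  have h4 : Pres P (aeval Z QQ • Φ i) := by
    have h5 : aeval Z QQ • Φ i = aeval Z (∏ j ∈ Finset.univ.erase i, Q j) • (aeval Z (Q i) • Φ i) := by
      rw [smul_smul, ← map_mul, hQQ, Finset.prod_erase_mul _ _ (Finset.mem_univ i)]
    rw [h5]
    exact pres_smul (hQ i p hp P hP) (adic_reg hP _)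
  have h5 : P.ord (aeval Z Q') = 0 := (hP Q' hQ'0).2.2 (h3 p hp hpv)
  have h6 : aeval Z Q' ≠ 0 := fun h => hQ'0 ((injective_iff_map_eq_zero _).1 hZ.1 _ h)
  have h7 : aeval Z (rename (Fin.castAdd r) q) • Φ i = (aeval Z Q')⁻¹ • (aeval Z QQ • Φ i) := by
    rw [smul_smul, h2, map_mul]
    congr 1
    field_simp
  rw [h7]
  refine pres_smul h4 (Or.inr ?_)
  rw [P.ord_inv, h5]
  simp

theorem fin_bound {α : Type*} {T : Set α} (hT : T.Finite) {R : α → ℕ → ℕ → Prop}
    (hmono : ∀ P A B A' B', A ≤ A' → B ≤ B' → R P A B → R P A' B')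
    (h : ∀ P ∈ T, ∃ A B, R P A B) : ∃ A B, ∀ P ∈ T, R P A B := by
  classical
  induction T, hT using Set.Finite.induction_on with
  | empty => exact ⟨0, 0, fun P hP => absurd hP (Set.notMem_empty P)⟩
  | insert _ _ ih =>
    obtain ⟨A, B, hAB⟩ := ih fun P hP => h P (Set.mem_insert_of_mem _ hP)
    obtain ⟨A', B', hAB'⟩ := h _ (Set.mem_insert _ _)
    refine ⟨max A A', max B B', fun P hP => ?_⟩
    rcases hP with rfl | hP
    · exact hmono _ _ _ _ _ (le_max_right _ _) (le_max_right _ _) hAB'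
    · exact hmono _ _ _ _ _ (le_max_left _ _) (le_max_left _ _) (hAB P hP)

/-- **The growth of the sections of `m K + A`.** -/
theorem num_le {a r N : ℕ} (hn0 : 0 < a + r) (htr : Algebra.trdeg k L = (a + r : ℕ))
    (hfin : ∀ y : Fin (a + r) → L, IsTranscendenceBasis k y →
      FiniteDimensional (IntermediateField.adjoin k (Set.range y)) L)
    {t : Fin a → L} (ht : AlgebraicIndependent k t) {z : Fin (N + 1) → L} (hz0 : ∀ i, z i ≠ 0)
    (htop : ∀ i, IntermediateField.adjoin k (Set.range fun j => z j / z i) = ⊤)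
    {U : Fin r → Derivation k L L} (hUt : ∀ i j, U i (t j) = 0)
    (hUB : ∀ l i j, U l (z j / z i) ∈ Algebra.adjoin k (Set.range fun j => z j / z i))
    (hUspan : ∀ D : Derivation k L L, (∀ j, D (t j) = 0) → ∃ c : Fin r → L, D = ∑ i, c i • U i) :
    NumLe k L (a + r) (fun _ => False) a := by
  classical
  intro S
  obtain ⟨x, hch⟩ := exists_chart htr ht (Set.finite_range fun j => z j / z 0) (htop 0)
  have hZ := hch.bas
  have hfd := hfin _ hZ
  obtain ⟨E, hE⟩ := exists_duals hZ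
  obtain ⟨F, hF'⟩ : ∃ F : Fin a → Derivation k L L, ∀ j, F j = E (Fin.castAdd r j) :=
    ⟨_, fun _ => rfl⟩
  have hF : ∀ j l, F j (t l) = if j = l then 1 else 0 := by
    intro j l
    have h1 := hE (Fin.castAdd r j) (Fin.castAdd r l)
    rw [Fin.append_left] at h1
    rw [hF', h1]
    by_cases h : j = l
    · rw [if_pos (by rw [h]), if_pos h]
    · rw [if_neg (fun h' => h (Fin.castAdd_injective a r h')), if_neg h]
  obtain ⟨Φ, hΦ⟩ : ∃ Φ : Fin (a + r) → Derivation k L L, Φ = Fin.append F U := ⟨_, rfl⟩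
  have hspan : ∀ D : Derivation k L L, ∃ c : Fin (a + r) → L, D = ∑ i, c i • Φ i := by
    intro D
    obtain ⟨c, hc⟩ := hUspan (D - ∑ j, D (t j) • F j) (fun l => by
      rw [Derivation.sub_apply, Pool.Agent.W721.PG.EFF2.der_sum, Finset.sum_eq_single l]
      · rw [hF, if_pos rfl, mul_one, sub_self]
      · intro b _ hb
        rw [hF, if_neg hb, mul_zero]
      · intro h
        exact absurd (Finset.mem_univ _) h)
    refine ⟨Fin.append (fun j => D (t j)) c, ?_⟩
    rw [Fin.sum_univ_add, hΦ]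
    simp only [Fin.append_left, Fin.append_right]
    rw [← hc]
    abel
  obtain ⟨q, hq0, hq⟩ := exists_vert_clear hZ hfd Φ
  obtain ⟨Q, hQdef⟩ : ∃ Q : L, Q = aeval t q := ⟨_, rfl⟩
  have hQZ : aeval (Fin.append t x) (rename (Fin.castAdd r) q) = Q := by
    rw [aeval_append_vert, hQdef]
  have hQ0 : Q ≠ 0 := by
    rw [hQdef]
    exact fun h => hq0 ((injective_iff_map_eq_zero _).1 ht _ h)
  have hQQ0 : Q ^ (a + r) ≠ 0 := pow_ne_zero _ hQ0
  obtain ⟨T, hTfin, hTdeg, C, c, hcount⟩ := count_L hn0 hZ hfd S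
  -- poles at infinity, base variables
  have hX : ∀ b : Fin (a + r), degreeOf b (X b : MvPolynomial (Fin (a + r)) k) = 1 := by
    intro b
    rw [degreeOf_X, if_pos rfl]
  have hXne : ∀ b : Fin (a + r), (X b : MvPolynomial (Fin (a + r)) k) ≠ 0 := fun b => X_ne_zero b
  have hb1 : ∀ j : Fin a, ∃ A B : ℕ, ∀ P ∈ T (Fin.castAdd r j), ∀ (m : ℕ)
      (ω : (Fin (a + r) → Derivation k L L) → L), IsSec k L (a + r) (fun _ => False) S m 1 ω →
      Ge P (-((A * m + B : ℕ) : ℤ)) ((Q ^ (a + r)) ^ m * ω Φ) := by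
    intro j
    refine fin_bound (R := fun P A B => ∀ (m : ℕ)
      (ω : (Fin (a + r) → Derivation k L L) → L), IsSec k L (a + r) (fun _ => False) S m 1 ω →
      Ge P (-((A * m + B : ℕ) : ℤ)) ((Q ^ (a + r)) ^ m * ω Φ)) (hTfin _) ?_ ?_
    · intro P A B A' B' hA hB h m ω hω
      refine (h m ω hω).mono ?_
      have h1 : A * m + B ≤ A' * m + B' := Nat.add_le_add (Nat.mul_le_mul_right m hA) hB
      have h2 : ((A * m + B : ℕ) : ℤ) ≤ ((A' * m + B' : ℕ) : ℤ) := by exact_mod_cast h1
      linarith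
    · intro P hP
      obtain ⟨e, he, hPe⟩ := hTdeg _ P hP
      have hdiv : IsDivisorial P (a + r) := div_of_deg hZ.1 (b := Fin.castAdd r j) fun f hf hf0 => by
        rw [hPe f hf, hf0]
        simp
      refine inf_any htr hfin hdiv (w := (aeval (Fin.append t x) (X (Fin.castAdd r j) :
        MvPolynomial (Fin (a + r)) k))⁻¹) ?_ Φ S hQQ0
      rw [P.ord_inv, hPe _ (hXne _), hX]
      have : (0 : ℤ) < e := by exact_mod_cast he
      push_cast
      linarith
  have hb2 : ∀ l : Fin r, ∃ A B : ℕ, ∀ P ∈ T (Fin.natAdd a l), ∀ (m : ℕ)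
      (ω : (Fin (a + r) → Derivation k L L) → L), IsSec k L (a + r) (fun _ => False) S m 1 ω →
      Ge P (-(B : ℤ)) ((Q ^ (a + r)) ^ m * ω Φ) := by
    intro l
    refine fin_bound (R := fun P _ B => ∀ (m : ℕ)
      (ω : (Fin (a + r) → Derivation k L L) → L), IsSec k L (a + r) (fun _ => False) S m 1 ω →
      Ge P (-(B : ℤ)) ((Q ^ (a + r)) ^ m * ω Φ)) (hTfin _) ?_ ?_
    · intro P A B A' B' hA hB h m ω hω
      refine (h m ω hω).mono ?_
      have h2 : (B : ℤ) ≤ (B' : ℤ) := by exact_mod_cast hB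
      linarith
    · intro P hP
      obtain ⟨e, he, hPe⟩ := hTdeg _ P hP
      have hqq : ∀ q : MvPolynomial (Fin a) k, q ≠ 0 → P.ord (aeval t q) = 0 := by
        intro q hq
        have h0 : rename (Fin.castAdd r) q ≠ 0 :=
          (map_ne_zero_iff _ (rename_injective _ (Fin.castAdd_injective a r))).2 hq
        rw [← aeval_append_vert t x, hPe _ h0, degreeOf_vert ⟨q, rfl⟩ l]
        simp
      obtain ⟨c', hc'⟩ := x_inf htr hfin ht hz0 htop hUt hUB hUspan hF S P hqq
      refine ⟨0, c', fun m ω hω => ?_⟩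
      have h1 := hc' m ω hω
      rw [← hΦ] at h1
      have h2 : Ge P 0 ((Q ^ (a + r)) ^ m) := by
        right
        rw [P.ord_pow, P.ord_pow, hQdef, hqq q hq0]
        simp
      have h3 := h2.mul h1
      rwa [zero_add] at h3
  choose A1 B1 h1 using hb1
  choose A2 B2 h2 using hb2
  refine ⟨C * ((∏ j, (A1 j + B1 j + c)) * ∏ l, (B2 l + c)), fun m M hm hind => ?_⟩
  obtain ⟨ω, hlin, hω⟩ := hind
  have h3 := hcount (Fin.append (fun j => A1 j * m + B1 j) B2) M
    (fun l => (Q ^ (a + r)) ^ m * ω l Φ)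
    (lin_frame hspan hlin (fun l => (hω l).1) (pow_ne_zero _ hQQ0)) ?_ ?_
  · refine h3.trans ?_
    rw [Fin.prod_univ_add]
    simp only [Fin.append_left, Fin.append_right]
    have h4 : ∏ j, (A1 j * m + B1 j + c) ≤ (∏ j, (A1 j + B1 j + c)) * m ^ a := by
      calc ∏ j, (A1 j * m + B1 j + c) ≤ ∏ j, ((A1 j + B1 j + c) * m) := by
            refine Finset.prod_le_prod' fun j _ => ?_
            nlinarith [Nat.le_mul_of_pos_right (B1 j) hm, Nat.le_mul_of_pos_right c hm]
        _ = (∏ j, (A1 j + B1 j + c)) * m ^ a := by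
            rw [Finset.prod_mul_distrib, Finset.prod_const, Finset.card_univ, Fintype.card_fin]
    calc C * ((∏ j, (A1 j * m + B1 j + c)) * ∏ l, (B2 l + c))
        ≤ C * (((∏ j, (A1 j + B1 j + c)) * m ^ a) * ∏ l, (B2 l + c)) :=
          Nat.mul_le_mul_left _ (Nat.mul_le_mul_right _ h4)
      _ = C * ((∏ j, (A1 j + B1 j + c)) * ∏ l, (B2 l + c)) * m ^ a := by ring
  · intro l p hp P hP
    by_cases hpv : Vert p
    · have h4 := (hω l).2.1 P (adic_div hZ.1 hp hP) (fun h => h) (fun i => Q • Φ i) (fun i => by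
        have h5 := hq p hp hpv P hP i
        rw [hQZ] at h5
        exact h5)
      rw [phi_smul (hω l).1] at h4
      exact h4
    · have h4 := dom_hor htr hfin hch (htop 0) hUt (fun i b hb => by
        obtain ⟨j, rfl⟩ := hb
        exact hUB i 0 j) hUspan hF (hω l) hp hpv hP
      rw [← hΦ] at h4
      have hQr : P.Reg ((Q ^ (a + r)) ^ m) := by
        rw [← hQZ, ← map_pow, ← map_pow]
        exact adic_reg hP _
      rcases h4 with h4 | ⟨s, hs, hs0, h4⟩
      · left
        rw [h4, mul_zero]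
      · by_cases h0 : ω l Φ = 0
        · left
          rw [h0, mul_zero]
        right
        refine ⟨s, hs, hs0, ?_⟩
        have h5 := hQr.resolve_left (pow_ne_zero _ hQQ0)
        rw [P.ord_mul (pow_ne_zero _ hQQ0) h0]
        linarith
  · intro l b
    refine Fin.addCases (fun j P hP => ?_) (fun j P hP => ?_) b
    · rw [Fin.append_left]
      exact h1 j P hP m (ω l) (hω l)
    · rw [Fin.append_right]
      exact h2 j P hP m (ω l) (hω l)

end Pool.Agent.Q82.AB
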